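import Pool.Agent.H25.MM.H261R2.CM.K5

/-!
# Compactness for coprime pairs in several variables, part 1: specialisation and relation
-/

set_option autoImplicit false

namespace Pool.Agent.H887R3.LW

open Polynomial Filter MeasureTheory Topology
open Pool.Agent.H261R2.CM

noncomputable section

/-- the exponents `M ^ i` -/
def pw (M k : ℕ) : Fin k → ℕ := fun i => M ^ (i : ℕ)

/-- approximation of a coprime pair by arbitrarily generic specialisations -/
theorem approx_gen {k : ℕ} (C D : MvPolynomial (Fin k) ℤ) (hC : C ≠ 0) (hD : D ≠ 0)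
    (hCD : IsRelPrime C D) (ε : ℝ) (hε : 0 < ε) (L : ℕ) :
    ∃ (M : ℕ) (A B R : ℤ[X]), L ≤ M ∧ A ≠ 0 ∧ B ≠ 0 ∧ R ≠ 0 ∧ IsRelPrime A B ∧
      spec (pw M k) C = R * A ∧ spec (pw M k) D = R * B ∧ |m1 A - mM C| < ε ∧
      |mx1 A B - mx C D| < ε ∧ |m1 B - mM D| < ε := by
  classical
  set e : ℕ → Fin k → ℕ := fun (n : ℕ) => pw n k with he
  have he0 : AsympIndep (atTop : Filter ℕ) e := asympIndep_pow k
  have he1 : AsympIndep (hyperfilter ℕ : Filter ℕ) e := fun s hs =>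
    I2_hyper_le (he0 s hs)
  have hex : ∀ n, ∃ A B R : ℤ[X], A ≠ 0 ∧ B ≠ 0 ∧ IsRelPrime A B ∧
      (spec (e n) C ≠ 0 → spec (e n) D ≠ 0 → R ≠ 0 ∧ spec (e n) C = R * A ∧
        spec (e n) D = R * B) := by
    intro n
    by_cases h1 : spec (e n) C ≠ 0 ∧ spec (e n) D ≠ 0
    · obtain ⟨A, B, Q, hAB, hA, hB⟩ := UniqueFactorizationMonoid.exists_reduced_factors
        (spec (e n) C) h1.1 (spec (e n) D)
      refine ⟨A, B, Q, ?_, ?_, hAB, fun _ _ => ⟨?_, ?_, ?_⟩⟩
      · rintro rfl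
        exact h1.1 (by rw [← hA, mul_zero])
      · rintro rfl
        exact h1.2 (by rw [← hB, mul_zero])
      · rintro rfl
        exact h1.1 (by rw [← hA, zero_mul])
      · rw [← hA]
      · rw [← hB]
    · exact ⟨1, 1, 1, one_ne_zero, one_ne_zero, isRelPrime_one_left,
        fun h2 h3 => absurd ⟨h2, h3⟩ h1⟩
  choose A B R hA hB hAB hrel using hex
  have hev : ∀ᶠ n in (hyperfilter ℕ : Filter ℕ), R n ≠ 0 ∧ spec (e n) C = R n * A n ∧
      spec (e n) D = R n * B n := by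
    filter_upwards [spec_ne_zero _ e he1 C hC, spec_ne_zero _ e he1 D hD] with n h1 h2
    exact hrel n h1 h2
  have hrel' : ∀ᶠ n in (hyperfilter ℕ : Filter ℕ), spec (e n) D * A n = spec (e n) C * B n := by
    filter_upwards [hev] with n h1
    rw [h1.2.1, h1.2.2]
    ring
  obtain ⟨hl1, hl2⟩ := limit_all C D hC hD hCD (hyperfilter ℕ) e he1 A B hA hB hAB hrel'
  have hl3 := (limit_all D C hD hC hCD.symm (hyperfilter ℕ) e he1 B A hB hA
    (fun n => (hAB n).symm) (hrel'.mono fun n h => h.symm)).1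
  have hge : ∀ᶠ n in (hyperfilter ℕ : Filter ℕ), L ≤ n := I2_hyper_le (eventually_ge_atTop L)
  obtain ⟨n, ⟨⟨⟨hn1, hn2⟩, hn3⟩, hn4⟩, hn5⟩ := (((((Metric.tendsto_nhds.mp hl1) ε hε).and
    ((Metric.tendsto_nhds.mp hl2) ε hε)).and hev).and hge).and
      ((Metric.tendsto_nhds.mp hl3) ε hε) |>.exists
  rw [Real.dist_eq] at hn1 hn2 hn5
  exact ⟨n, A n, B n, R n, hn4, hA n, hB n, hn3.1, hAB n, hn3.2.1, hn3.2.2, hn1, hn2, hn5⟩

/-- a relation with standardly many terms, along the hyperfilter -/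
def Rel (P Q : ℕ → ℤ[X]) (S : Finset Gam) (x : Gam → Bool → ℤ) : Prop :=
  (∃ γ ∈ S, ∃ b, x γ b ≠ 0) ∧ ∀ᶠ n in (hyperfilter ℕ : Filter ℕ), ∀ N : ℤ,
    ∑ γ ∈ S, (x γ true * zc (P n) (N - rep γ n) + x γ false * zc (Q n) (N - rep γ n)) = 0

theorem rel_of_bounded (A B : ℕ → ℤ[X]) (hA : ∀ n, A n ≠ 0) (hB : ∀ n, B n ≠ 0)
    (K : ℝ) (hK : ∀ n, mx1 (A n) (B n) ≤ K) :
    ∃ (F : Finset Gam) (x : Gam → Bool → ℤ), Rel A B F x := by
  set κ : ℝ := Real.log 2 + 2 * K + 1 with hκ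
  have hN : ∀ n, N21 (A n) (B n) < κ := fun n => by
    have h1 := N21_le (A n) (B n) (hA n)
    have h2 := hK n
    rw [hκ]
    linarith
  choose p hp1 hp2 using fun n => outer_approx_pair (A n) (B n) (hA n) κ (hN n)
  set a : ℂ := ((1 / 2 : ℝ) : ℂ) with ha
  have ha0 : a ≠ 0 := by
    rw [ha]
    exact_mod_cast (by norm_num : (1 / 2 : ℝ) ≠ 0)
  have hna : ‖a‖ = 1 / 2 := by
    rw [ha, Complex.norm_real]
    norm_num
  have hl : ∀ n (P : ℤ[X]), mass (p n * toC P) ≤ 2 → l2le ((Polynomial.C a * p n) * toC P) := by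
    intro n P h
    change mass ((Polynomial.C a * p n) * toC P) ≤ 1
    rw [mul_assoc, mass_C_mul a ha0, hna]
    linarith
  obtain ⟨F, x, hx, hrel⟩ := relation_exists A B (fun n => Polynomial.C a * p n)
    (1 / 2 * Real.exp ((Real.log 2 - κ) / 2)) (by positivity)
    (fun n => by
      rw [Polynomial.coeff_C_mul, norm_mul, hna]
      exact mul_le_mul_of_nonneg_left (hp2 n) (by norm_num))
    (fun n => hl n (A n) (by linarith [hp1 n, mass_nonneg (p n * toC (B n))]))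
    (fun n => hl n (B n) (by linarith [hp1 n, mass_nonneg (p n * toC (A n))]))
  exact ⟨F, x, hx, hrel⟩

theorem zc_mul (R A : ℤ[X]) (N : ℤ) :
    zc (R * A) N = ∑ j ∈ R.support, R.coeff j * zc A (N - (j : ℤ)) := by
  by_cases hN : 0 ≤ N
  · obtain ⟨M, rfl⟩ := Int.eq_ofNat_of_zero_le hN
    have h1 : zc (R * A) ((M : ℕ) : ℤ) = (R * A).coeff M := by
      unfold zc
      simp
    change zc (R * A) ((M : ℕ) : ℤ) = _
    rw [h1]
    conv_lhs => rw [R.as_sum_support_C_mul_X_pow, Finset.sum_mul, Polynomial.finset_sum_coeff]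
    exact Finset.sum_congr rfl fun j _ => TG.coeff_mono_mul A _ _ _
  · have h1 : zc (R * A) N = 0 := by
      unfold zc
      rw [if_neg hN]
    rw [h1]
    symm
    refine Finset.sum_eq_zero fun j _ => ?_
    have h2 : ¬ (0 ≤ N - (j : ℤ)) := by omega
    unfold zc
    rw [if_neg h2, mul_zero]

theorem Rel.mul {A B : ℕ → ℤ[X]} {S : Finset Gam} {x : Gam → Bool → ℤ} (h : Rel A B S x)
    (R : ℕ → ℤ[X]) : Rel (fun n => R n * A n) (fun n => R n * B n) S x := by
  refine ⟨h.1, ?_⟩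
  filter_upwards [h.2] with n hn N
  have h1 : ∀ γ ∈ S, (x γ true * zc (R n * A n) (N - rep γ n) +
      x γ false * zc (R n * B n) (N - rep γ n)) =
      ∑ j ∈ (R n).support, (R n).coeff j * (x γ true * zc (A n) ((N - j) - rep γ n) +
        x γ false * zc (B n) ((N - j) - rep γ n)) := by
    intro γ _
    rw [zc_mul, zc_mul, Finset.mul_sum, Finset.mul_sum, ← Finset.sum_add_distrib]
    refine Finset.sum_congr rfl fun j _ => ?_
    have : N - rep γ n - (j : ℤ) = N - j - rep γ n := by ring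
    rw [this]
    ring
  rw [Finset.sum_congr rfl h1, Finset.sum_comm]
  refine Finset.sum_eq_zero fun j _ => ?_
  rw [← Finset.mul_sum, hn, mul_zero]

end

end Pool.Agent.H887R3.LW
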