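import Pool.Agent.H25.MM.H887R3.LW.MV1

/-!
# Part 2: the subgroup of small digits and the restriction of a relation to a coset
-/

set_option autoImplicit false

namespace Pool.Agent.H887R3.LW

open Polynomial Filter MeasureTheory Topology
open Pool.Agent.H261R2.CM

noncomputable section

theorem rep_coe (γ : Gam) : ((rep γ : ℕ → ℤ) : Gam) = γ := Quotient.out_eq γ

theorem rep_add (a b : Gam) :
    ∀ᶠ n in (hyperfilter ℕ : Filter ℕ), rep (a + b) n = rep a n + rep b n := by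
  have h : ((rep (a + b) : ℕ → ℤ) : Gam) = ((fun n => rep a n + rep b n : ℕ → ℤ) : Gam) := by
    rw [rep_coe]
    have : ((fun n => rep a n + rep b n : ℕ → ℤ) : Gam) =
        ((rep a : ℕ → ℤ) : Gam) + ((rep b : ℕ → ℤ) : Gam) := rfl
    rw [this, rep_coe, rep_coe]
  exact Filter.Germ.coe_eq.mp h

theorem rep_neg (a : Gam) :
    ∀ᶠ n in (hyperfilter ℕ : Filter ℕ), rep (-a) n = - rep a n := by
  have h : ((rep (-a) : ℕ → ℤ) : Gam) = ((fun n => - rep a n : ℕ → ℤ) : Gam) := by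
    rw [rep_coe]
    have : ((fun n => - rep a n : ℕ → ℤ) : Gam) = - ((rep a : ℕ → ℤ) : Gam) := rfl
    rw [this, rep_coe]
  exact Filter.Germ.coe_eq.mp h

theorem rep_sub (a b : Gam) :
    ∀ᶠ n in (hyperfilter ℕ : Filter ℕ), rep (a - b) n = rep a n - rep b n := by
  rw [sub_eq_add_neg]
  filter_upwards [rep_add a (-b), rep_neg b] with n h1 h2
  rw [h1, h2]
  ring

theorem rep_zero : ∀ᶠ n in (hyperfilter ℕ : Filter ℕ), rep 0 n = 0 := by
  have h : ((rep 0 : ℕ → ℤ) : Gam) = ((fun _ => 0 : ℕ → ℤ) : Gam) := by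
    rw [rep_coe]
    rfl
  exact Filter.Germ.coe_eq.mp h

/-- `z` has digits of size at most `j * δ n` -/
def Sm (d M δ : ℕ → ℕ) (j n : ℕ) (z : ℤ) : Prop :=
  ∃ v : Fin (d n) → ℤ, (∀ i, |v i| ≤ ((j * δ n : ℕ) : ℤ)) ∧
    z = ∑ i, v i * (pw (M n) (d n) i : ℤ)

theorem Sm.add {d M δ : ℕ → ℕ} {j j' n : ℕ} {a b : ℤ} (ha : Sm d M δ j n a)
    (hb : Sm d M δ j' n b) : Sm d M δ (j + j') n (a + b) := by
  obtain ⟨v, hv, rfl⟩ := ha
  obtain ⟨w, hw, rfl⟩ := hb
  refine ⟨fun i => v i + w i, fun i => ?_, ?_⟩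
  · refine (abs_add_le _ _).trans ?_
    have h1 := hv i
    have h2 := hw i
    push_cast at h1 h2 ⊢
    linarith
  · rw [← Finset.sum_add_distrib]
    exact Finset.sum_congr rfl fun i _ => by ring

theorem Sm.neg {d M δ : ℕ → ℕ} {j n : ℕ} {a : ℤ} (ha : Sm d M δ j n a) :
    Sm d M δ j n (-a) := by
  obtain ⟨v, hv, rfl⟩ := ha
  refine ⟨fun i => - v i, fun i => ?_, ?_⟩
  · rw [abs_neg]
    exact hv i
  · rw [← Finset.sum_neg_distrib]
    exact Finset.sum_congr rfl fun i _ => by ring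

theorem Sm.mono {d M δ : ℕ → ℕ} {j j' n : ℕ} {a : ℤ} (ha : Sm d M δ j n a) (h : j ≤ j') :
    Sm d M δ j' n a := by
  obtain ⟨v, hv, rfl⟩ := ha
  refine ⟨v, fun i => (hv i).trans ?_, rfl⟩
  exact_mod_cast Nat.mul_le_mul_right _ h

/-- the subgroup of the elements with small digits -/
def HH (d M δ : ℕ → ℕ) : AddSubgroup Gam where
  carrier := {γ | ∃ j, ∀ᶠ n in (hyperfilter ℕ : Filter ℕ), Sm d M δ j n (rep γ n)}
  zero_mem' := by
    refine ⟨0, ?_⟩
    filter_upwards [rep_zero] with n hn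
    rw [hn]
    exact ⟨fun _ => 0, fun i => by simp, by simp⟩
  add_mem' := by
    rintro a b ⟨j, hj⟩ ⟨j', hj'⟩
    refine ⟨j + j', ?_⟩
    filter_upwards [hj, hj', rep_add a b] with n h1 h2 h3
    rw [h3]
    exact h1.add h2
  neg_mem' := by
    rintro a ⟨j, hj⟩
    refine ⟨j, ?_⟩
    filter_upwards [hj, rep_neg a] with n h1 h2
    rw [h2]
    exact h1.neg

/-- the digits of the exponents of the two sequences are at most `δ n` -/
def Bd (d M δ : ℕ → ℕ) (P : ℕ → ℤ[X]) : Prop :=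
  ∀ n N, zc (P n) N ≠ 0 → ∃ a : Fin (d n) → ℤ, (∀ i, 0 ≤ a i ∧ a i ≤ (δ n : ℤ)) ∧
    N = ∑ i, a i * (pw (M n) (d n) i : ℤ)

/-- restriction of a relation to a coset of the subgroup of small digits -/
theorem coset_rel {d M δ : ℕ → ℕ} {P Q : ℕ → ℤ[X]} (hP : Bd d M δ P) (hQ : Bd d M δ Q)
    {S : Finset Gam} {x : Gam → Bool → ℤ} (h : Rel P Q S x) :
    ∃ S' : Finset Gam, Rel P Q S' x ∧ ∀ γ ∈ S', ∀ γ' ∈ S', γ - γ' ∈ HH d M δ := by
  classical
  obtain ⟨⟨γ₀, hγ₀, b₀, hb₀⟩, hrel⟩ := h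
  refine ⟨S.filter fun γ => γ - γ₀ ∈ HH d M δ, ⟨⟨γ₀, ?_, b₀, hb₀⟩, ?_⟩, ?_⟩
  · rw [Finset.mem_filter]
    exact ⟨hγ₀, by rw [sub_self]; exact (HH d M δ).zero_mem⟩
  · have hfar : ∀ᶠ n in (hyperfilter ℕ : Filter ℕ),
        ∀ γ ∈ S.filter (fun γ => γ - γ₀ ∈ HH d M δ),
        ∀ γ' ∈ S.filter (fun γ => γ - γ₀ ∉ HH d M δ), ¬ Sm d M δ 1 n (rep γ' n - rep γ n) := by
      rw [Filter.eventually_all_finset]
      intro γ hγ
      rw [Filter.eventually_all_finset]
      intro γ' hγ'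
      rw [Finset.mem_filter] at hγ hγ'
      have hnot : γ' - γ ∉ HH d M δ := by
        intro hin
        apply hγ'.2
        have := (HH d M δ).add_mem hin hγ.2
        simpa using this
      have h1 : ¬ ∀ᶠ n in (hyperfilter ℕ : Filter ℕ), Sm d M δ 1 n (rep (γ' - γ) n) :=
        fun h2 => hnot ⟨1, h2⟩
      rw [← Ultrafilter.eventually_not] at h1
      filter_upwards [h1, rep_sub γ' γ] with n h2 h3
      rwa [h3] at h2
    filter_upwards [hrel, hfar] with n hn hf N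
    set T : Gam → ℤ := fun γ => x γ true * zc (P n) (N - rep γ n) +
      x γ false * zc (Q n) (N - rep γ n) with hT
    have hsplit : ∑ γ ∈ S.filter (fun γ => γ - γ₀ ∈ HH d M δ), T γ +
        ∑ γ ∈ S.filter (fun γ => γ - γ₀ ∉ HH d M δ), T γ = 0 := by
      rw [Finset.sum_filter_add_sum_filter_not]
      exact hn N
    have hdig : ∀ γ, T γ ≠ 0 → ∃ a : Fin (d n) → ℤ, (∀ i, 0 ≤ a i ∧ a i ≤ (δ n : ℤ)) ∧
        N - rep γ n = ∑ i, a i * (pw (M n) (d n) i : ℤ) := by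
      intro γ hγ
      by_cases h1 : zc (P n) (N - rep γ n) = 0
      · by_cases h2 : zc (Q n) (N - rep γ n) = 0
        · exact absurd (by simp only [hT, h1, h2, mul_zero, add_zero]) hγ
        · exact hQ n _ h2
      · exact hP n _ h1
    by_cases hall : ∀ γ ∈ S.filter (fun γ => γ - γ₀ ∈ HH d M δ), T γ = 0
    · exact Finset.sum_eq_zero hall
    · push Not at hall
      obtain ⟨γ, hγ, hTγ⟩ := hall
      have hz : ∑ γ ∈ S.filter (fun γ => γ - γ₀ ∉ HH d M δ), T γ = 0 := by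
        refine Finset.sum_eq_zero fun γ' hγ' => ?_
        by_contra hne
        obtain ⟨a, ha, ha'⟩ := hdig γ hTγ
        obtain ⟨b, hb, hb'⟩ := hdig γ' hne
        apply hf γ hγ γ' hγ'
        refine ⟨fun i => a i - b i, fun i => ?_, ?_⟩
        · have h1 := ha i
          have h2 := hb i
          rw [one_mul, abs_le]
          constructor <;> linarith
        · have h3 : rep γ' n - rep γ n = (N - rep γ n) - (N - rep γ' n) := by ring
          rw [h3, ha', hb', ← Finset.sum_sub_distrib]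
          exact Finset.sum_congr rfl fun i _ => by ring
      linarith
  · intro γ hγ γ' hγ'
    rw [Finset.mem_filter] at hγ hγ'
    have := (HH d M δ).sub_mem hγ.2 hγ'.2
    simpa using this

end

end Pool.Agent.H887R3.LW
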