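import Pool.Agent.H25.MM.H887R3.LW.MV2

/-!
# Part 3: from a relation of minimal rank to a coprime pair of full dimension
-/

set_option autoImplicit false

namespace Pool.Agent.H887R3.LW

open Polynomial Filter MeasureTheory Topology
open Pool.Agent.H261R2.CM

noncomputable section

/-- the exponent vectors of the monomials of a pair -/
def vecs (𝕜 : Type) [Field 𝕜] {k : ℕ} (T : Finset (Fin k →₀ ℕ)) : Set (Fin k → 𝕜) :=
  (fun s : Fin k →₀ ℕ => fun i => ((s i : ℕ) : 𝕜)) '' (T : Set (Fin k →₀ ℕ))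

/-- the dimension of the joint Newton polytope of a pair -/
def dimJ {k : ℕ} (C D : MvPolynomial (Fin k) ℤ) : ℕ :=
  Module.finrank ℚ (vectorSpan ℚ (vecs ℚ (C.support ∪ D.support)))

/-- the rank of the group generated by the differences -/
def rkS (S : Finset Gam) : ℕ :=
  Module.finrank ℤ (Submodule.span ℤ {γ : Gam | ∃ a ∈ S, ∃ b ∈ S, γ = a - b})

theorem finrank_int_le {k : ℕ} (T : Set (Fin k → ℤ)) (W : Submodule ℚ (Fin k → ℚ))
    (h : ∀ v ∈ T, (fun i => ((v i : ℤ) : ℚ)) ∈ W) :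
    Module.finrank ℤ (Submodule.span ℤ T) ≤ Module.finrank ℚ W := by
  classical
  set Λ := Submodule.span ℤ T with hΛ
  let φ : (Fin k → ℤ) →ₗ[ℤ] (Fin k → ℚ) :=
    { toFun := fun v i => ((v i : ℤ) : ℚ)
      map_add' := fun v w => by ext i; simp
      map_smul' := fun c v => by ext i; simp }
  have hφ : Function.Injective φ := by
    intro v w hvw
    ext i
    have := congrFun hvw i
    simpa [φ] using this
  have hW : ∀ v ∈ Λ, φ v ∈ W := by
    intro v hv
    induction hv using Submodule.span_induction with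
    | mem v hv => exact h v hv
    | zero => rw [map_zero]; exact W.zero_mem
    | add v w _ _ h1 h2 => rw [map_add]; exact W.add_mem h1 h2
    | smul c v _ h1 =>
      rw [map_smul]
      have : (c • φ v) = ((c : ℚ) • φ v) := by
        ext i
        simp
      rw [this]
      exact W.smul_mem _ h1
  set β := Module.finBasis ℤ Λ with hβ
  have h1 : LinearIndependent ℤ (fun i => φ (β i : Fin k → ℤ)) := by
    have h2 := β.linearIndependent
    have h3 : LinearIndependent ℤ ((φ ∘ₗ Λ.subtype) ∘ β) := by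
      apply h2.map'
      rw [LinearMap.ker_eq_bot]
      exact hφ.comp Λ.injective_subtype
    exact h3
  have h2 : LinearIndependent ℚ (fun i => φ (β i : Fin k → ℤ)) :=
    (LinearIndependent.iff_fractionRing ℤ ℚ).1 h1
  have h3 : LinearIndependent ℚ (fun i => (⟨φ (β i : Fin k → ℤ), hW _ (β i).2⟩ : W)) := by
    apply LinearIndependent.of_comp W.subtype
    exact h2
  have h4 := h3.fintype_card_le_finrank
  rwa [Fintype.card_fin] at h4

/-- positive basis of a finitely generated subgroup -/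
theorem pos_basis (Γ : Submodule ℤ Gam) [Module.Finite ℤ Γ] :
    ∃ (k : ℕ) (b : Fin k → Gam), k = Module.finrank ℤ Γ ∧ (∀ i, 0 < b i) ∧ (∀ i, b i ∈ Γ) ∧
      (∀ c : Fin k → ℤ, ∑ i, c i • b i = 0 → c = 0) ∧
      ∀ γ ∈ Γ, ∃ a : Fin k → ℤ, ∑ i, a i • b i = γ := by
  classical
  have hTF : Module.IsTorsionFree ℤ Gam := by
    infer_instance
  have : Module.Free ℤ Γ := Module.free_of_finite_type_torsion_free'
  set b₀ := Module.finBasis ℤ Γ with hb₀
  have hne : ∀ i, (b₀ i : Gam) ≠ 0 := by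
    intro i h
    exact b₀.ne_zero i (Subtype.ext h)
  set w : Fin (Module.finrank ℤ Γ) → ℤˣ := fun i => if 0 < (b₀ i : Gam) then 1 else -1 with hw
  set b₁ := b₀.unitsSMul w with hb₁
  have hpos : ∀ i, 0 < (b₁ i : Gam) := by
    intro i
    rw [hb₁, Module.Basis.unitsSMul_apply]
    by_cases hi : 0 < (b₀ i : Gam)
    · simp [hw, hi]
    · have hlt : (b₀ i : Gam) < 0 := lt_of_le_of_ne (not_lt.1 hi) (hne i)
      simp [hw, hi]
      exact hlt
  refine ⟨Module.finrank ℤ Γ, fun i => (b₁ i : Gam), rfl, hpos, fun i => (b₁ i).2, ?_, ?_⟩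
  · intro c hc
    have hli := b₁.linearIndependent
    rw [Fintype.linearIndependent_iff] at hli
    have hc' : ∑ i, c i • b₁ i = 0 := by
      apply Subtype.ext
      simpa using hc
    funext i
    exact hli c hc' i
  · intro γ hγ
    refine ⟨fun i => b₁.repr ⟨γ, hγ⟩ i, ?_⟩
    have h := b₁.sum_repr ⟨γ, hγ⟩
    have h' : ((∑ i, b₁.repr ⟨γ, hγ⟩ i • b₁ i : Γ) : Gam) = γ := congrArg Subtype.val h
    rw [Submodule.coe_sum] at h'
    exact h'

/-- the coefficients of `spec e C * Q` -/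
theorem zc_spec_mul {k : ℕ} (e : Fin k → ℕ) (C : MvPolynomial (Fin k) ℤ)
    (T : Finset (Fin k →₀ ℕ)) (hT : C.support ⊆ T) (Q : ℤ[X]) (N : ℤ) :
    zc (spec e C * Q) N = ∑ s ∈ T, C.coeff s * zc Q (N - ∑ i, (s i : ℤ) * (e i : ℤ)) := by
  have hexp : spec e C = ∑ s ∈ T, Polynomial.C (C.coeff s) * X ^ (∑ i, s i * e i) := by
    have h1 : spec e C = ∑ s ∈ C.support, Polynomial.C (C.coeff s) * X ^ (∑ i, s i * e i) := by
      conv_lhs => rw [C.as_sum]
      rw [map_sum]
      exact Finset.sum_congr rfl fun s' _ => TG.spec_monomial _ _ _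
    rw [h1]
    refine Finset.sum_subset hT fun s _ hs => ?_
    rw [MvPolynomial.notMem_support_iff.1 hs]
    simp
  by_cases hN : 0 ≤ N
  · obtain ⟨M, rfl⟩ := Int.eq_ofNat_of_zero_le hN
    have h1 : zc (spec e C * Q) ((M : ℕ) : ℤ) = (spec e C * Q).coeff M := by
      unfold zc
      simp
    change zc (spec e C * Q) ((M : ℕ) : ℤ) = _
    rw [h1, hexp, Finset.sum_mul, Polynomial.finsetSum_coeff]
    refine Finset.sum_congr rfl fun s _ => ?_
    rw [TG.coeff_mono_mul]
    congr 2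
    push_cast
    rfl
  · have h1 : zc (spec e C * Q) N = 0 := by
      unfold zc
      rw [if_neg hN]
    rw [h1]
    symm
    refine Finset.sum_eq_zero fun s _ => ?_
    have h3 : (0 : ℤ) ≤ ∑ i, (s i : ℤ) * (e i : ℤ) := Finset.sum_nonneg fun i _ => by positivity
    have h2 : ¬ (0 ≤ N - ∑ i, (s i : ℤ) * (e i : ℤ)) := by omega
    unfold zc
    rw [if_neg h2, mul_zero]

open TG in
/-- the structure theorem for a relation of minimal rank with differences in a subgroup -/
theorem structure_H (P Q : ℕ → ℤ[X]) (hP : ∀ n, P n ≠ 0) (hQ : ∀ n, Q n ≠ 0) (H : AddSubgroup Gam)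
    (S : Finset Gam) (x : Gam → Bool → ℤ) (h : Rel P Q S x) (hS : ∀ γ ∈ S, ∀ γ' ∈ S, γ - γ' ∈ H)
    (hmin : ∀ S' x', Rel P Q S' x' → (∀ γ ∈ S', ∀ γ' ∈ S', γ - γ' ∈ H) → rkS S ≤ rkS S') :
    ∃ (k : ℕ) (e : ℕ → Fin k → ℕ) (C D : MvPolynomial (Fin k) ℤ) (b : Fin k → Gam),
      C ≠ 0 ∧ D ≠ 0 ∧ IsRelPrime C D ∧ AsympIndep (hyperfilter ℕ : Filter ℕ) e ∧
      (∀ i, b i ∈ H) ∧ (∀ᶠ n in (hyperfilter ℕ : Filter ℕ), ∀ i, (e n i : ℤ) = rep (b i) n) ∧
      (∀ i, ∀ᶠ n in (hyperfilter ℕ : Filter ℕ), 0 < e n i) ∧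
      (∀ᶠ n in (hyperfilter ℕ : Filter ℕ), spec (e n) D * P n = spec (e n) C * Q n) ∧
      k ≤ dimJ C D := by
  classical
  set Γ : Submodule ℤ Gam := Submodule.span ℤ {γ : Gam | ∃ a ∈ S, ∃ b ∈ S, γ = a - b} with hΓ
  have hfin : Set.Finite {γ : Gam | ∃ a ∈ S, ∃ b ∈ S, γ = a - b} := by
    have : {γ : Gam | ∃ a ∈ S, ∃ b ∈ S, γ = a - b} = (fun p : Gam × Gam => p.1 - p.2) ''
        ((S ×ˢ S : Finset (Gam × Gam)) : Set (Gam × Gam)) := by
      ext γ
      simp only [Set.mem_ofPred_eq, Set.mem_image, Finset.mem_coe, Finset.mem_product, Prod.exists]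
      constructor
      · rintro ⟨a, ha, b, hb, rfl⟩
        exact ⟨a, b, ⟨ha, hb⟩, rfl⟩
      · rintro ⟨a, b, ⟨ha, hb⟩, rfl⟩
        exact ⟨a, ha, b, hb, rfl⟩
    rw [this]
    exact (Finset.finite_toSet _).image _
  have : Module.Finite ℤ Γ := by
    rw [hΓ]
    exact Module.Finite.span_of_finite ℤ hfin
  have hΓH : ∀ γ ∈ Γ, γ ∈ H := by
    intro γ hγ
    have h1 : Γ ≤ AddSubgroup.toIntSubmodule H := by
      rw [hΓ, Submodule.span_le]
      rintro γ ⟨a, ha, b, hb, rfl⟩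
      exact hS a ha b hb
    exact h1 hγ
  obtain ⟨k, b, hk, hbpos, hbΓ, hind, hspan⟩ := pos_basis Γ
  obtain ⟨⟨γ₀, hγ₀, b₀, hb₀⟩, hrel⟩ := h
  have hcoo : ∀ γ, ∃ a : Fin k → ℤ, γ ∈ S → ∑ i, a i • b i = γ - γ₀ := by
    intro γ
    by_cases hγ : γ ∈ S
    · obtain ⟨a, ha⟩ := hspan (γ - γ₀) (Submodule.subset_span ⟨γ, hγ, γ₀, hγ₀, rfl⟩)
      exact ⟨a, fun _ => ha⟩
    · exact ⟨0, fun h => absurd h hγ⟩
  choose a hspan' using hcoo
  set e : ℕ → Fin k → ℕ := fun n i => (rep (b i) n).toNat with he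
  have hbn : ∀ i, ∀ᶠ n in (hyperfilter ℕ : Filter ℕ), 0 < rep (b i) n := by
    intro i
    have h1 : (0 : Gam) < ((rep (b i) : ℕ → ℤ) : Gam) := by
      rw [rep_spec]
      exact hbpos i
    exact (Filter.Germ.coe_pos (φ := hyperfilter ℕ) (f := rep (b i))).1 h1
  -- eventually the exponents represent the basis
  have hev_e : ∀ᶠ n in (hyperfilter ℕ : Filter ℕ), ∀ i, (e n i : ℤ) = rep (b i) n := by
    rw [Filter.eventually_all]
    intro i
    filter_upwards [hbn i] with n hn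
    simp only [he]
    exact Int.toNat_of_nonneg hn.le
  have hepos : ∀ i, ∀ᶠ n in (hyperfilter ℕ : Filter ℕ), 0 < e n i := by
    intro i
    filter_upwards [hbn i] with n hn
    simp only [he]
    omega
  have hAI : AsympIndep (hyperfilter ℕ : Filter ℕ) e := by
    intro s hs
    rw [Ultrafilter.eventually_not]
    intro h0
    apply hs
    apply hind s
    rw [rel_zero]
    filter_upwards [h0, hev_e] with n h0 h1
    rw [← h0]
    exact Finset.sum_congr rfl fun i _ => by rw [h1 i]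
  -- coordinates
  have hcoord : ∀ᶠ n in (hyperfilter ℕ : Filter ℕ), ∀ γ ∈ S,
      ∑ i, a γ i * (e n i : ℤ) = rep γ n - rep γ₀ n := by
    rw [Filter.eventually_all_finset]
    intro γ hγ
    have := (rel_iff b (a γ) (γ - γ₀)).1 (hspan' γ hγ)
    filter_upwards [this, hev_e, rep_sub γ γ₀] with n h0 h1 h2
    rw [← h2, ← h0]
    exact Finset.sum_congr rfl fun i _ => by rw [h1 i]
  -- the shift
  set a0 : ℕ := ∑ γ ∈ S, ∑ i, (a γ i).natAbs with ha0
  have hshift : ∀ γ ∈ S, ∀ i, 0 ≤ a γ i + (a0 : ℤ) := by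
    intro γ hγ i
    have h1 : (a γ i).natAbs ≤ ∑ i, (a γ i).natAbs :=
      Finset.single_le_sum (f := fun i => (a γ i).natAbs) (fun _ _ => Nat.zero_le _) (Finset.mem_univ i)
    have h2 : ∑ i, (a γ i).natAbs ≤ a0 :=
      Finset.single_le_sum (f := fun γ => ∑ i, (a γ i).natAbs) (fun _ _ => Nat.zero_le _) hγ
    omega
  set m : Gam → (Fin k →₀ ℕ) := fun γ =>
    Finsupp.equivFunOnFinite.symm (fun i => (a γ i + (a0 : ℤ)).toNat) with hm
  have hm_apply : ∀ γ ∈ S, ∀ i, ((m γ i : ℕ) : ℤ) = a γ i + (a0 : ℤ) := by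
    intro γ hγ i
    simp only [hm, Finsupp.equivFunOnFinite_symm_apply_apply]
    exact Int.toNat_of_nonneg (hshift γ hγ i)
  have hm_inj : ∀ γ ∈ S, ∀ γ' ∈ S, m γ = m γ' → γ = γ' := by
    intro γ hγ γ' hγ' h
    have h3 : γ - γ₀ = γ' - γ₀ := by
      rw [← hspan' γ hγ, ← hspan' γ' hγ']
      refine Finset.sum_congr rfl fun i _ => ?_
      have h1 := hm_apply γ hγ i
      have h2 := hm_apply γ' hγ' i
      rw [h] at h1
      have : a γ i = a γ' i := by linarith
      rw [this]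
    exact sub_left_injective h3
  set D' : MvPolynomial (Fin k) ℤ := ∑ γ ∈ S, MvPolynomial.monomial (m γ) (x γ true) with hD'
  set C' : MvPolynomial (Fin k) ℤ := - ∑ γ ∈ S, MvPolynomial.monomial (m γ) (x γ false) with hC'
  have hco : ∀ (β : Bool), ∀ γ ∈ S,
      (∑ γ ∈ S, MvPolynomial.monomial (m γ) (x γ β)).coeff (m γ) = x γ β := by
    intro β γ hγ
    rw [MvPolynomial.coeff_sum, Finset.sum_eq_single_of_mem γ hγ]
    · simp
    · intro γ' hγ' hne
      rw [MvPolynomial.coeff_monomial, if_neg]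
      intro h
      exact hne (hm_inj γ' hγ' γ hγ h)
  have hne_or : C' ≠ 0 ∨ D' ≠ 0 := by
    cases b₀ with
    | false =>
      left
      intro h0
      apply hb₀
      rw [← hco false γ₀ hγ₀]
      have : (∑ γ ∈ S, MvPolynomial.monomial (m γ) (x γ false)) = 0 := by
        rw [hC'] at h0
        exact neg_eq_zero.1 h0
      rw [this]
      simp
    | true =>
      right
      intro h0
      apply hb₀
      rw [← hco true γ₀ hγ₀]
      rw [← hD', h0]
      simp
  -- the relation between polynomials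
  have hpoly : ∀ᶠ n in (hyperfilter ℕ : Filter ℕ), spec (e n) D' * P n = spec (e n) C' * Q n := by
    filter_upwards [hrel, hcoord] with n hr hc
    have hE : ∀ γ ∈ S, ((∑ i, m γ i * e n i : ℕ) : ℤ) =
        rep γ n - rep γ₀ n + (a0 : ℤ) * ∑ i, (e n i : ℤ) := by
      intro γ hγ
      push_cast
      rw [← hc γ hγ, Finset.mul_sum, ← Finset.sum_add_distrib]
      refine Finset.sum_congr rfl fun i _ => ?_
      rw [hm_apply γ hγ i]
      ring
    have hs1 : ∀ β, spec (e n) (∑ γ ∈ S, MvPolynomial.monomial (m γ) (x γ β)) =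
        ∑ γ ∈ S, Polynomial.C (x γ β) * X ^ (∑ i, m γ i * e n i) := by
      intro β
      rw [map_sum]
      exact Finset.sum_congr rfl fun γ _ => spec_monomial _ _ _
    rw [hC', map_neg, neg_mul, eq_neg_iff_add_eq_zero, hD', hs1 true, hs1 false]
    ext M
    rw [Polynomial.coeff_add, Finset.sum_mul, Finset.sum_mul, Polynomial.finsetSum_coeff,
      Polynomial.finsetSum_coeff, Polynomial.coeff_zero, ← Finset.sum_add_distrib]
    rw [← hr ((M : ℤ) + rep γ₀ n - (a0 : ℤ) * ∑ i, (e n i : ℤ))]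
    refine Finset.sum_congr rfl fun γ hγ => ?_
    rw [coeff_mono_mul, coeff_mono_mul, hE γ hγ]
    have : (M : ℤ) - (rep γ n - rep γ₀ n + (a0 : ℤ) * ∑ i, (e n i : ℤ)) =
        (M : ℤ) + rep γ₀ n - (a0 : ℤ) * ∑ i, (e n i : ℤ) - rep γ n := by ring
    rw [this]
  have hboth : C' ≠ 0 ∧ D' ≠ 0 := by
    rcases hne_or with h | h
    · refine ⟨h, ?_⟩
      intro h0
      obtain ⟨n, hn1, hn2⟩ := ((spec_ne_zero' _ e hAI C' h).and hpoly).exists
      rw [h0, map_zero, zero_mul] at hn2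
      exact (mul_ne_zero hn1 (hQ n)) hn2.symm
    · refine ⟨?_, h⟩
      intro h0
      obtain ⟨n, hn1, hn2⟩ := ((spec_ne_zero' _ e hAI D' h).and hpoly).exists
      rw [h0, map_zero, zero_mul] at hn2
      exact (mul_ne_zero hn1 (hP n)) hn2
  obtain ⟨C, D, T, hCD, hTC, hTD⟩ := UniqueFactorizationMonoid.exists_reduced_factors C' hboth.1 D'
  have hT : T ≠ 0 := by
    rintro rfl
    rw [zero_mul] at hTC
    exact hboth.1 hTC.symm
  have hC : C ≠ 0 := by
    rintro rfl
    rw [mul_zero] at hTC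
    exact hboth.1 hTC.symm
  have hD : D ≠ 0 := by
    rintro rfl
    rw [mul_zero] at hTD
    exact hboth.2 hTD.symm
  have hfinal : ∀ᶠ n in (hyperfilter ℕ : Filter ℕ), spec (e n) D * P n = spec (e n) C * Q n := by
    filter_upwards [hpoly, spec_ne_zero' _ e hAI T hT] with n hn hTn
    rw [← hTC, ← hTD, map_mul, map_mul, mul_assoc, mul_assoc] at hn
    exact mul_left_cancel₀ hTn hn
  refine ⟨k, e, C, D, b, hC, hD, hCD, hAI, fun i => hΓH _ (hbΓ i), hev_e, hepos, hfinal, ?_⟩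
  -- minimality
  let L : (Fin k → ℤ) →ₗ[ℤ] Gam :=
    { toFun := fun c => ∑ i, c i • b i
      map_add' := fun c c' => by
        rw [← Finset.sum_add_distrib]
        exact Finset.sum_congr rfl fun i _ => by rw [Pi.add_apply, add_smul]
      map_smul' := fun r c => by
        rw [RingHom.id_apply, Finset.smul_sum]
        exact Finset.sum_congr rfl fun i _ => by rw [Pi.smul_apply, smul_assoc] }
  have hL : Function.Injective L := by
    intro c c' hcc
    have h1 : L (c - c') = 0 := by rw [map_sub, hcc, sub_self]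
    have h2 := hind (c - c') h1
    exact sub_eq_zero.1 h2
  set ι : (Fin k →₀ ℕ) → (Fin k → ℤ) := fun s i => (s i : ℤ) with hι
  have hιinj : Function.Injective ι := by
    intro s t hst
    ext i
    have := congrFun hst i
    simp only [hι] at this
    exact_mod_cast this
  set g : (Fin k →₀ ℕ) → Gam := fun s => L (ι s) with hg
  have hginj : Function.Injective g := hL.comp hιinj
  set U : Finset (Fin k →₀ ℕ) := C.support ∪ D.support with hU
  set S' : Finset Gam := U.image g with hS'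
  set x' : Gam → Bool → ℤ := fun γ β => if β then D.coeff (Function.invFun g γ) else
    - C.coeff (Function.invFun g γ) with hx'
  have hinv : ∀ s, Function.invFun g (g s) = s := fun s => Function.leftInverse_invFun hginj s
  have hgrep : ∀ᶠ n in (hyperfilter ℕ : Filter ℕ), ∀ s ∈ U,
      rep (g s) n = ∑ i, (s i : ℤ) * (e n i : ℤ) := by
    rw [Filter.eventually_all_finset]
    intro s _
    have h1 : ∑ i, ι s i • b i = g s := rfl
    filter_upwards [(rel_iff b (ι s) (g s)).1 h1, hev_e] with n h2 h3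
    rw [← h2]
    exact Finset.sum_congr rfl fun i _ => by rw [← h3 i]
  have hRel' : Rel P Q S' x' := by
    refine ⟨?_, ?_⟩
    · obtain ⟨s, hs⟩ := MvPolynomial.support_nonempty.2 hC
      refine ⟨g s, Finset.mem_image_of_mem g (Finset.mem_union_left _ hs), false, ?_⟩
      simp only [hx', hinv]
      simpa using (MvPolynomial.mem_support_iff.1 hs)
    · filter_upwards [hfinal, hgrep] with n h1 h2 N
      rw [hS', Finset.sum_image fun s _ t _ hst => hginj hst]
      have h3 : zc (spec (e n) D * P n) N = zc (spec (e n) C * Q n) N := by rw [h1]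
      rw [zc_spec_mul (e n) D U Finset.subset_union_right,
        zc_spec_mul (e n) C U Finset.subset_union_left] at h3
      rw [← sub_eq_zero, ← Finset.sum_sub_distrib] at h3
      rw [← h3]
      refine Finset.sum_congr rfl fun s hs => ?_
      simp only [hx', hinv]
      rw [h2 s hs]
      simp
      ring
  have hS'H : ∀ γ ∈ S', ∀ γ' ∈ S', γ - γ' ∈ H := by
    intro γ hγ γ' hγ'
    rw [hS', Finset.mem_image] at hγ hγ'
    obtain ⟨s, -, rfl⟩ := hγ
    obtain ⟨t, -, rfl⟩ := hγ'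
    apply hΓH
    have h1 : ∀ c, L c ∈ Γ := fun c => by
      change ∑ i, c i • b i ∈ Γ
      exact Γ.sum_mem fun i _ => Γ.smul_mem _ (hbΓ i)
    exact Γ.sub_mem (h1 _) (h1 _)
  have hle := hmin S' x' hRel' hS'H
  have hkS : k = rkS S := hk
  refine (le_of_eq hkS).trans (hle.trans ?_)
  -- the rank of the new relation
  have hset : {γ : Gam | ∃ a ∈ S', ∃ b ∈ S', γ = a - b} =
      L '' {v : Fin k → ℤ | ∃ s ∈ U, ∃ t ∈ U, v = ι s - ι t} := by
    ext γ
    simp only [Set.mem_ofPred_eq, Set.mem_image, hS', Finset.mem_image]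
    constructor
    · rintro ⟨_, ⟨s, hs, rfl⟩, _, ⟨t, ht, rfl⟩, rfl⟩
      exact ⟨ι s - ι t, ⟨s, hs, t, ht, rfl⟩, by rw [map_sub]⟩
    · rintro ⟨_, ⟨s, hs, t, ht, rfl⟩, rfl⟩
      exact ⟨g s, ⟨s, hs, rfl⟩, g t, ⟨t, ht, rfl⟩, by rw [map_sub]⟩
  have h5 : rkS S' = Module.finrank ℤ
      (Submodule.span ℤ {v : Fin k → ℤ | ∃ s ∈ U, ∃ t ∈ U, v = ι s - ι t}) := by
    unfold rkS
    rw [hset, ← Submodule.map_span]
    exact ((Submodule.equivMapOfInjective L hL _).finrank_eq).symm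
  rw [h5]
  refine finrank_int_le _ _ ?_
  rintro v ⟨s, hs, t, ht, rfl⟩
  have h6 : (fun i => (((ι s - ι t) i : ℤ) : ℚ)) =
      (fun i => ((s i : ℕ) : ℚ)) -ᵥ (fun i => ((t i : ℕ) : ℚ)) := by
    ext i
    simp [hι]
  rw [h6]
  exact vsub_mem_vectorSpan ℚ ⟨s, hs, rfl⟩ ⟨t, ht, rfl⟩

end

end Pool.Agent.H887R3.LW
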