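import Pool.Agent.H25.MM.H887R3.LW.MV3

/-!
# Part 4: linear functionals on the supports of a product
-/

set_option autoImplicit false

namespace Pool.Agent.H887R3.LW

open Filter MeasureTheory Topology

noncomputable section

section

variable {𝕜 : Type} [Field 𝕜] [LinearOrder 𝕜] [IsStrictOrderedRing 𝕜] {m : ℕ}

/-- the part of a polynomial on which a function has a given value -/
def part (φ : (Fin m →₀ ℕ) → 𝕜) (A : MvPolynomial (Fin m) ℤ) (α : 𝕜) :
    MvPolynomial (Fin m) ℤ :=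
  ∑ s ∈ A.support.filter (fun s => φ s = α), MvPolynomial.monomial s (A.coeff s)

theorem coeff_part (φ : (Fin m →₀ ℕ) → 𝕜) (A : MvPolynomial (Fin m) ℤ) (α : 𝕜)
    (s : Fin m →₀ ℕ) : (part φ A α).coeff s = if φ s = α then A.coeff s else 0 := by
  classical
  unfold part
  rw [MvPolynomial.coeff_sum]
  by_cases hs : s ∈ A.support.filter (fun s => φ s = α)
  · rw [Finset.sum_eq_single_of_mem s hs]
    · rw [MvPolynomial.coeff_monomial, if_pos rfl, if_pos (Finset.mem_filter.1 hs).2]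
    · intro t _ hts
      rw [MvPolynomial.coeff_monomial, if_neg hts]
  · rw [Finset.sum_eq_zero]
    · by_cases h1 : φ s = α
      · rw [if_pos h1]
        symm
        by_contra h2
        exact hs (Finset.mem_filter.2 ⟨MvPolynomial.mem_support_iff.2 h2, h1⟩)
      · rw [if_neg h1]
    · intro t ht
      rw [MvPolynomial.coeff_monomial, if_neg]
      rintro rfl
      exact hs ht

theorem mem_add_of_mem_mul {A B : MvPolynomial (Fin m) ℤ} {u : Fin m →₀ ℕ}
    (hu : u ∈ (A * B).support) : ∃ a ∈ A.support, ∃ b ∈ B.support, a + b = u := by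
  classical
  have := MvPolynomial.support_mul A B hu
  rw [Finset.mem_add] at this
  exact this

theorem top_mul (φ : (Fin m →₀ ℕ) → 𝕜) (hφ : ∀ a b, φ (a + b) = φ a + φ b)
    (A B : MvPolynomial (Fin m) ℤ) (α β : 𝕜) (hA1 : ∀ s ∈ A.support, φ s ≤ α)
    (hA2 : ∃ s ∈ A.support, φ s = α) (hB1 : ∀ s ∈ B.support, φ s ≤ β)
    (hB2 : ∃ s ∈ B.support, φ s = β) : ∃ s ∈ (A * B).support, φ s = α + β := by
  classical
  have hA0 : part φ A α ≠ 0 := by
    intro h
    obtain ⟨s, hs, hsα⟩ := hA2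
    have h1 := coeff_part φ A α s
    rw [h, if_pos hsα] at h1
    exact (MvPolynomial.mem_support_iff.1 hs) (by rw [← h1]; simp)
  have hB0 : part φ B β ≠ 0 := by
    intro h
    obtain ⟨s, hs, hsα⟩ := hB2
    have h1 := coeff_part φ B β s
    rw [h, if_pos hsα] at h1
    exact (MvPolynomial.mem_support_iff.1 hs) (by rw [← h1]; simp)
  obtain ⟨u, hu⟩ := MvPolynomial.support_nonempty.2 (mul_ne_zero hA0 hB0)
  have hφu : φ u = α + β := by
    obtain ⟨a, ha, b, hb, rfl⟩ := mem_add_of_mem_mul hu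
    rw [hφ]
    congr 1
    · by_contra h
      rw [MvPolynomial.mem_support_iff, coeff_part, if_neg h] at ha
      exact ha rfl
    · by_contra h
      rw [MvPolynomial.mem_support_iff, coeff_part, if_neg h] at hb
      exact hb rfl
  refine ⟨u, ?_, hφu⟩
  rw [MvPolynomial.mem_support_iff] at hu ⊢
  have : (A * B).coeff u = (part φ A α * part φ B β).coeff u := by
    rw [MvPolynomial.coeff_mul, MvPolynomial.coeff_mul]
    refine Finset.sum_congr rfl fun p hp => ?_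
    rw [Finset.HasAntidiagonal.mem_antidiagonal] at hp
    rw [coeff_part, coeff_part]
    by_cases h1 : A.coeff p.1 = 0
    · rw [h1]
      simp
    by_cases h2 : B.coeff p.2 = 0
    · rw [h2]
      simp
    have h3 := hA1 p.1 (MvPolynomial.mem_support_iff.2 h1)
    have h4 := hB1 p.2 (MvPolynomial.mem_support_iff.2 h2)
    have h5 : φ p.1 + φ p.2 = α + β := by rw [← hφ, hp, hφu]
    rw [if_pos (by linarith), if_pos (by linarith)]
  rwa [this]

theorem exists_max (φ : (Fin m →₀ ℕ) → 𝕜) (A : MvPolynomial (Fin m) ℤ) (hA : A ≠ 0) :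
    ∃ α, (∀ s ∈ A.support, φ s ≤ α) ∧ ∃ s ∈ A.support, φ s = α := by
  obtain ⟨s, hs, h⟩ := Finset.exists_max_image A.support φ (MvPolynomial.support_nonempty.2 hA)
  exact ⟨φ s, h, s, hs, rfl⟩

/-- a functional constant on the support of a product is constant on those of the factors -/
theorem const_of_mul (φ : (Fin m →₀ ℕ) → 𝕜) (hφ : ∀ a b, φ (a + b) = φ a + φ b)
    (A B : MvPolynomial (Fin m) ℤ) (hA : A ≠ 0) (hB : B ≠ 0) (c : 𝕜)
    (hc : ∀ s ∈ (A * B).support, φ s = c) : ∃ a, ∀ s ∈ A.support, φ s = a := by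
  obtain ⟨α, hα1, hα2⟩ := exists_max φ A hA
  obtain ⟨β, hβ1, hβ2⟩ := exists_max φ B hB
  obtain ⟨α', hα1', hα2'⟩ := exists_max (fun s => - φ s) A hA
  obtain ⟨β', hβ1', hβ2'⟩ := exists_max (fun s => - φ s) B hB
  obtain ⟨s, hs, hs'⟩ := top_mul φ hφ A B α β hα1 hα2 hβ1 hβ2
  obtain ⟨t, ht, ht'⟩ := top_mul (fun s => - φ s) (fun a b => by rw [hφ]; ring) A B α' β'
    hα1' hα2' hβ1' hβ2'
  rw [hc s hs] at hs'
  rw [hc t ht] at ht'
  obtain ⟨b, hb, hb'⟩ := hβ2
  have h1 := hβ1' b hb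
  refine ⟨α, fun u hu => ?_⟩
  have h2 := hα1 u hu
  have h3 := hα1' u hu
  linarith

/-- the joint support of a coprime pair lies in a coset of any space containing the differences of
the exponents of a relation -/
theorem const_of_rel (φ : (Fin m →₀ ℕ) → 𝕜) (hφ : ∀ a b, φ (a + b) = φ a + φ b)
    (F G C D : MvPolynomial (Fin m) ℤ) (hF : F ≠ 0) (hG : G ≠ 0) (hC : C ≠ 0) (hD : D ≠ 0)
    (hrel : D * F = C * G) (hFC : F ∣ C) (hGD : G ∣ D) (c : 𝕜)
    (hc : ∀ s ∈ C.support ∪ D.support, φ s = c) :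
    ∃ a, ∀ s ∈ F.support ∪ G.support, φ s = a := by
  classical
  obtain ⟨H, hH⟩ := hFC
  obtain ⟨H', hH'⟩ := hGD
  have hH0 : H ≠ 0 := by rintro rfl; exact hC (by rw [hH, mul_zero])
  have hH0' : H' ≠ 0 := by rintro rfl; exact hD (by rw [hH', mul_zero])
  obtain ⟨f, hf⟩ := const_of_mul φ hφ F H hF hH0 c (by
    rw [← hH]
    exact fun s hs => hc s (Finset.mem_union_left _ hs))
  obtain ⟨g, hg⟩ := const_of_mul φ hφ G H' hG hH0' c (by
    rw [← hH']
    exact fun s hs => hc s (Finset.mem_union_right _ hs))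
  obtain ⟨u, hu⟩ := MvPolynomial.support_nonempty.2 (mul_ne_zero hD hF)
  have h1 : φ u = c + f := by
    obtain ⟨a, ha, b, hb, rfl⟩ := mem_add_of_mem_mul hu
    rw [hφ, hc a (Finset.mem_union_right _ ha), hf b hb]
  have h2 : φ u = c + g := by
    rw [hrel] at hu
    obtain ⟨a, ha, b, hb, rfl⟩ := mem_add_of_mem_mul hu
    rw [hφ, hc a (Finset.mem_union_left _ ha), hg b hb]
  refine ⟨f, fun s hs => ?_⟩
  rcases Finset.mem_union.1 hs with h | h
  · exact hf s h
  · rw [hg s h]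
    linarith

theorem vectorSpan_le (W : Submodule 𝕜 (Fin m → 𝕜)) (F G C D : MvPolynomial (Fin m) ℤ)
    (hF : F ≠ 0) (hG : G ≠ 0) (hC : C ≠ 0) (hD : D ≠ 0) (hrel : D * F = C * G) (hFC : F ∣ C)
    (hGD : G ∣ D) (hW : ∀ s ∈ C.support ∪ D.support, ∀ t ∈ C.support ∪ D.support,
      (fun i => ((s i : ℕ) : 𝕜) - ((t i : ℕ) : 𝕜)) ∈ W) :
    vectorSpan 𝕜 (vecs 𝕜 (F.support ∪ G.support)) ≤ W := by
  classical
  unfold vectorSpan
  rw [Submodule.span_le]
  rintro _ ⟨_, ⟨s, hs, rfl⟩, _, ⟨t, ht, rfl⟩, rfl⟩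
  by_contra hnot
  obtain ⟨f, hf1, hf2⟩ := Submodule.exists_dual_map_eq_bot_of_notMem hnot inferInstance
  have hfW : ∀ w ∈ W, f w = 0 := by
    intro w hw
    have h1 := Submodule.mem_map_of_mem (f := f) hw
    rw [hf2] at h1
    exact (Submodule.mem_bot 𝕜).1 h1
  set φ : (Fin m →₀ ℕ) → 𝕜 := fun s => f (fun i => ((s i : ℕ) : 𝕜)) with hφ
  have hadd : ∀ a b, φ (a + b) = φ a + φ b := by
    intro a b
    simp only [hφ]
    rw [← map_add]
    congr 1
    ext i
    simp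
  obtain ⟨u, hu⟩ := MvPolynomial.support_nonempty.2 hC
  obtain ⟨a, ha⟩ := const_of_rel φ hadd F G C D hF hG hC hD hrel hFC hGD (φ u) (by
    intro v hv
    have h1 := hfW _ (hW v hv u (Finset.mem_union_left _ hu))
    have h2 : (fun i => ((v i : ℕ) : 𝕜) - ((u i : ℕ) : 𝕜)) =
        (fun i => ((v i : ℕ) : 𝕜)) - (fun i => ((u i : ℕ) : 𝕜)) := rfl
    rw [h2, map_sub, sub_eq_zero] at h1
    exact h1)
  apply hf1
  have h3 := ha s hs
  have h4 := ha t ht
  simp only [hφ] at h3 h4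
  have h5 : ((fun i => ((s i : ℕ) : 𝕜)) -ᵥ (fun i => ((t i : ℕ) : 𝕜)) : Fin m → 𝕜) =
      (fun i => ((s i : ℕ) : 𝕜)) - (fun i => ((t i : ℕ) : 𝕜)) := rfl
  change f ((fun i => ((s i : ℕ) : 𝕜)) -ᵥ (fun i => ((t i : ℕ) : 𝕜))) = 0
  rw [h5, map_sub, h3, h4, sub_self]

end

end

end Pool.Agent.H887R3.LW
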