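import Pool.Agent.H25.MM.H887R3.LW.MV4

/-!
# Part 5: lifting of a relation to several variables
-/

set_option autoImplicit false

namespace Pool.Agent.H887R3.LW

open Polynomial Filter MeasureTheory Topology
open Pool.Agent.H261R2.CM

noncomputable section

/-- the exponent `L + ∑ s_i E_i` -/
def ex {k m : ℕ} (E : Fin k → Fin m → ℤ) (L : ℕ) (s : Fin k →₀ ℕ) : Fin m →₀ ℕ :=
  Finsupp.equivFunOnFinite.symm (fun l => ((L : ℤ) + ∑ i, (s i : ℤ) * E i l).toNat)

/-- the monomial substitution `y_i ↦ z ^ E_i`, multiplied by `(z_1 ⋯ z_m) ^ L` -/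
def msub {k m : ℕ} (E : Fin k → Fin m → ℤ) (L : ℕ) (C : MvPolynomial (Fin k) ℤ) :
    MvPolynomial (Fin m) ℤ :=
  ∑ s ∈ C.support, MvPolynomial.monomial (ex E L s) (C.coeff s)

theorem ex_apply {k m : ℕ} (E : Fin k → Fin m → ℤ) (L : ℕ) (s : Fin k →₀ ℕ) (l : Fin m)
    (h : |∑ i, (s i : ℤ) * E i l| ≤ (L : ℤ)) :
    ((ex E L s l : ℕ) : ℤ) = (L : ℤ) + ∑ i, (s i : ℤ) * E i l := by
  unfold ex
  rw [Finsupp.equivFunOnFinite_symm_apply_apply]
  rw [abs_le] at h
  exact Int.toNat_of_nonneg (by linarith)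

theorem spec_msub {k m : ℕ} (E : Fin k → Fin m → ℤ) (L : ℕ) (C : MvPolynomial (Fin k) ℤ)
    (hL : ∀ s ∈ C.support, ∀ l, |∑ i, (s i : ℤ) * E i l| ≤ (L : ℤ)) (r : Fin m → ℕ)
    (e : Fin k → ℕ) (he : ∀ i, (e i : ℤ) = ∑ l, E i l * (r l : ℤ)) :
    spec r (msub E L C) = X ^ (L * ∑ l, r l) * spec e C := by
  have h1 : spec e C = ∑ s ∈ C.support, Polynomial.C (C.coeff s) * X ^ (∑ i, s i * e i) := by
    conv_lhs => rw [C.as_sum]
    rw [map_sum]
    exact Finset.sum_congr rfl fun s' _ => TG.spec_monomial _ _ _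
  rw [h1]
  unfold msub
  rw [map_sum, Finset.mul_sum]
  refine Finset.sum_congr rfl fun s hs => ?_
  rw [TG.spec_monomial]
  have h2 : ∑ l, ex E L s l * r l = L * ∑ l, r l + ∑ i, s i * e i := by
    zify
    have h3 : ∀ l, ((ex E L s l : ℕ) : ℤ) * (r l : ℤ) =
        (L : ℤ) * (r l : ℤ) + ∑ i, (s i : ℤ) * E i l * (r l : ℤ) := by
      intro l
      rw [ex_apply E L s l (hL s hs l), add_mul, Finset.sum_mul]
    rw [Finset.sum_congr rfl fun l _ => h3 l, Finset.sum_add_distrib, ← Finset.mul_sum,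
      Finset.sum_comm]
    congr 1
    refine Finset.sum_congr rfl fun i _ => ?_
    rw [he i, Finset.mul_sum]
    exact Finset.sum_congr rfl fun l _ => by ring
  rw [h2, pow_add]
  ring

theorem dig_inj (M : ℕ) : ∀ (m : ℕ) (a b : Fin m → ℕ), (∀ i, a i < M) → (∀ i, b i < M) →
    ∑ i, a i * M ^ (i : ℕ) = ∑ i, b i * M ^ (i : ℕ) → a = b := by
  intro m
  induction m with
  | zero => intro a b _ _ _; exact Subsingleton.elim _ _
  | succ m ih =>
    intro a b ha hb h
    rw [Fin.sum_univ_succ, Fin.sum_univ_succ] at h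
    have h1 : ∀ c : Fin (m + 1) → ℕ, ∑ i : Fin m, c i.succ * M ^ ((i.succ : Fin (m + 1)) : ℕ) =
        M * ∑ i : Fin m, c i.succ * M ^ (i : ℕ) := by
      intro c
      rw [Finset.mul_sum]
      refine Finset.sum_congr rfl fun i _ => ?_
      rw [Fin.val_succ, pow_succ]
      ring
    rw [h1 a, h1 b] at h
    simp only [Fin.val_zero, pow_zero, mul_one] at h
    have hM : 0 < M := lt_of_le_of_lt (Nat.zero_le _) (ha 0)
    have h2 : a 0 = b 0 := by
      have h3 := congrArg (· % M) h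
      simp only [Nat.add_mul_mod_self_left] at h3
      rwa [Nat.mod_eq_of_lt (ha 0), Nat.mod_eq_of_lt (hb 0)] at h3
    have h4 : ∑ i : Fin m, a i.succ * M ^ (i : ℕ) = ∑ i : Fin m, b i.succ * M ^ (i : ℕ) := by
      rw [h2] at h
      exact Nat.eq_of_mul_eq_mul_left hM (Nat.add_left_cancel h)
    have h5 := ih (fun i => a i.succ) (fun i => b i.succ) (fun i => ha _) (fun i => hb _) h4
    funext i
    refine Fin.cases h2 (fun j => ?_) i
    exact congrFun h5 j

theorem spec_inj {m : ℕ} (M : ℕ) (P : MvPolynomial (Fin m) ℤ) (h : ∀ s ∈ P.support, ∀ i, s i < M)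
    (h0 : spec (pw M m) P = 0) : P = 0 := by
  classical
  by_contra hP
  obtain ⟨s, hs⟩ := MvPolynomial.support_nonempty.2 hP
  have hexp : spec (pw M m) P =
      ∑ s' ∈ P.support, Polynomial.C (P.coeff s') * X ^ (∑ i, s' i * pw M m i) := by
    conv_lhs => rw [P.as_sum]
    rw [map_sum]
    exact Finset.sum_congr rfl fun s' _ => TG.spec_monomial _ _ _
  have hco : (spec (pw M m) P).coeff (∑ i, s i * pw M m i) = P.coeff s := by
    rw [hexp, Polynomial.finsetSum_coeff, Finset.sum_eq_single_of_mem s hs]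
    · simp
    · intro s' hs' hne
      rw [Polynomial.coeff_C_mul, Polynomial.coeff_X_pow, if_neg, mul_zero]
      intro heq
      apply hne
      have := dig_inj M m (fun i => s' i) (fun i => s i) (h s' hs') (h s hs) heq.symm
      ext i
      exact congrFun this i
  rw [h0, Polynomial.coeff_zero] at hco
  exact (MvPolynomial.mem_support_iff.1 hs) hco.symm

theorem mem_support_msub {k m : ℕ} {E : Fin k → Fin m → ℤ} {L : ℕ} {C : MvPolynomial (Fin k) ℤ}
    {u : Fin m →₀ ℕ} (hu : u ∈ (msub E L C).support) : ∃ s ∈ C.support, u = ex E L s := by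
  classical
  unfold msub at hu
  rw [MvPolynomial.mem_support_iff, MvPolynomial.coeff_sum] at hu
  obtain ⟨s, hs, hne⟩ := Finset.exists_ne_zero_of_sum_ne_zero hu
  rw [MvPolynomial.coeff_monomial] at hne
  refine ⟨s, hs, ?_⟩
  by_contra h
  rw [if_neg (fun h' => h h'.symm)] at hne
  exact hne rfl

/-- lifting of a relation -/
theorem lift_rel {k m : ℕ} (C D : MvPolynomial (Fin k) ℤ) (F G : MvPolynomial (Fin m) ℤ)
    (E : Fin k → Fin m → ℤ) (L δ M : ℕ)
    (hL : ∀ s ∈ C.support ∪ D.support, ∀ l, |∑ i, (s i : ℤ) * E i l| ≤ (L : ℤ))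
    (hF : ∀ s ∈ F.support, ∀ l, s l ≤ δ) (hG : ∀ s ∈ G.support, ∀ l, s l ≤ δ)
    (hM : 2 * L + δ < M) (e : Fin k → ℕ) (he : ∀ i, (e i : ℤ) = ∑ l, E i l * (pw M m l : ℤ))
    (hrel : spec e D * spec (pw M m) F = spec e C * spec (pw M m) G) :
    msub E L D * F = msub E L C * G := by
  classical
  rw [← sub_eq_zero]
  have hexle : ∀ s ∈ C.support ∪ D.support, ∀ l, ex E L s l ≤ 2 * L := by
    intro s hs l
    have h1 := hL s hs l
    have h2 := ex_apply E L s l h1
    rw [abs_le] at h1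
    omega
  refine spec_inj M _ ?_ ?_
  · intro u hu i
    have h1 : u ∈ (msub E L D * F).support ∪ (msub E L C * G).support := by
      exact MvPolynomial.support_sub (Fin m) _ _ hu
    rcases Finset.mem_union.1 h1 with h2 | h2
    · obtain ⟨a, ha, b, hb, rfl⟩ := mem_add_of_mem_mul h2
      obtain ⟨s, hs, rfl⟩ := mem_support_msub ha
      have h3 := hexle s (Finset.mem_union_right _ hs) i
      have h4 := hF b hb i
      rw [Finsupp.add_apply]
      omega
    · obtain ⟨a, ha, b, hb, rfl⟩ := mem_add_of_mem_mul h2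
      obtain ⟨s, hs, rfl⟩ := mem_support_msub ha
      have h3 := hexle s (Finset.mem_union_left _ hs) i
      have h4 := hG b hb i
      rw [Finsupp.add_apply]
      omega
  · rw [map_sub, map_mul, map_mul,
      spec_msub E L D (fun s hs => hL s (Finset.mem_union_right _ hs)) _ e he,
      spec_msub E L C (fun s hs => hL s (Finset.mem_union_left _ hs)) _ e he,
      mul_assoc, mul_assoc, hrel, sub_self]

/-- the joint Newton polytope of the pair lies in a translate of the space of the exponents -/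
theorem vectorSpan_le_E (𝕜 : Type) [Field 𝕜] [LinearOrder 𝕜] [IsStrictOrderedRing 𝕜]
    {k m : ℕ} (C D : MvPolynomial (Fin k) ℤ)
    (F G : MvPolynomial (Fin m) ℤ) (hF : F ≠ 0) (hG : G ≠ 0) (hFG : IsRelPrime F G)
    (E : Fin k → Fin m → ℤ) (L : ℕ)
    (hL : ∀ s ∈ C.support ∪ D.support, ∀ l, |∑ i, (s i : ℤ) * E i l| ≤ (L : ℤ))
    (hC : msub E L C ≠ 0) (hD : msub E L D ≠ 0)
    (hrel : msub E L D * F = msub E L C * G) :
    vectorSpan 𝕜 (vecs 𝕜 (F.support ∪ G.support)) ≤
      Submodule.span 𝕜 (Set.range fun (i : Fin k) (l : Fin m) => ((E i l : ℤ) : 𝕜)) := by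
  classical
  have hFC : F ∣ msub E L C := by
    have h1 : F ∣ msub E L C * G := ⟨msub E L D, by rw [← hrel, mul_comm]⟩
    exact hFG.dvd_of_dvd_mul_right h1
  have hGD : G ∣ msub E L D := by
    have h1 : G ∣ msub E L D * F := ⟨msub E L C, by rw [hrel, mul_comm]⟩
    exact hFG.symm.dvd_of_dvd_mul_right h1
  refine vectorSpan_le _ F G _ _ hF hG hC hD hrel hFC hGD ?_
  have hmem : ∀ u ∈ (msub E L C).support ∪ (msub E L D).support,
      ∃ s ∈ C.support ∪ D.support, u = ex E L s := by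
    intro u hu
    rcases Finset.mem_union.1 hu with h | h
    · obtain ⟨s, hs, h2⟩ := mem_support_msub h
      exact ⟨s, Finset.mem_union_left _ hs, h2⟩
    · obtain ⟨s, hs, h2⟩ := mem_support_msub h
      exact ⟨s, Finset.mem_union_right _ hs, h2⟩
  intro u hu v hv
  obtain ⟨s, hs, rfl⟩ := hmem u hu
  obtain ⟨t, ht, rfl⟩ := hmem v hv
  have h1 : (fun l => ((ex E L s l : ℕ) : 𝕜) - ((ex E L t l : ℕ) : 𝕜)) =
      ∑ i : Fin k, (((s i : ℤ) - (t i : ℤ) : ℤ) : 𝕜) • (fun l : Fin m => ((E i l : ℤ) : 𝕜)) := by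
    funext l
    have h2 := ex_apply E L s l (hL s hs l)
    have h3 := ex_apply E L t l (hL t ht l)
    have h4 : ((ex E L s l : ℕ) : ℤ) - ((ex E L t l : ℕ) : ℤ) =
        ∑ i, ((s i : ℤ) - (t i : ℤ)) * E i l := by
      rw [h2, h3]
      have : ∑ i, ((s i : ℤ) - (t i : ℤ)) * E i l =
          ∑ i, (s i : ℤ) * E i l - ∑ i, (t i : ℤ) * E i l := by
        rw [← Finset.sum_sub_distrib]
        exact Finset.sum_congr rfl fun i _ => by ring
      rw [this]
      ring
    have h5 := congrArg (fun z : ℤ => (z : 𝕜)) h4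
    simp only [Int.cast_sub, Int.cast_natCast, Int.cast_sum, Int.cast_mul] at h5
    rw [h5, Finset.sum_apply]
    refine Finset.sum_congr rfl fun i _ => ?_
    simp
  rw [h1]
  exact Submodule.sum_mem _ fun i _ => Submodule.smul_mem _ _ (Submodule.subset_span ⟨i, rfl⟩)

end

end Pool.Agent.H887R3.LW
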