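import Pool.Agent.H25.MM.H887R3.LW.MV8

/-!
# Part 9: the derived sets
-/

set_option autoImplicit false

namespace Pool.Agent.H887R3.LW

open Filter MeasureTheory Topology Set
open Pool.Agent.H261R2.CM

noncomputable section

/-- the measures of the coprime pairs of bounded height and of joint dimension at least `j` -/
def RJ (K : ℝ) (j : ℕ) : Set ℝ :=
  {x : ℝ | ∃ k : ℕ, ∃ F G : MvPolynomial (Fin k) ℤ, F ≠ 0 ∧ G ≠ 0 ∧ IsRelPrime F G ∧
    mx F G ≤ K ∧ j ≤ dimJ F G ∧ x = mM F}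

theorem derived_RJ (K : ℝ) (j : ℕ) : derivedSet (RJ K j) ⊆ RJ K (j + 1) := by
  intro x hx
  rw [mem_derivedSet, accPt_principal_iff_clusterPt, ← mem_closure_iff_clusterPt,
    mem_closure_iff_seq_limit] at hx
  obtain ⟨u, hu, hlim⟩ := hx
  have hu1 : ∀ n, ∃ k : ℕ, ∃ F G : MvPolynomial (Fin k) ℤ, F ≠ 0 ∧ G ≠ 0 ∧ IsRelPrime F G ∧
    mx F G ≤ K ∧ j ≤ dimJ F G ∧ u n = mM F := fun n => (hu n).1
  choose d F G hF hG hFG hK hj hux using hu1
  obtain ⟨k, C, D, hC, hD, hCD, hl1, hl2, hk, hev⟩ := struct_all d F G hF hG hFG K hK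
  have hxC : x = mM C := by
    have h1 : Tendsto (fun n => mM (F n)) (hyperfilter ℕ : Filter ℕ) (𝓝 x) := by
      refine (hlim.mono_left I2_hyper_le).congr fun n => hux n
    exact tendsto_nhds_unique h1 hl1
  obtain ⟨n, hn1, hn2, hn3⟩ := hev.exists
  refine ⟨k, C, D, hC, hD, hCD, ?_, ?_, hxC⟩
  · exact le_of_tendsto hl2 (Eventually.of_forall hK)
  · have h1 : j ≤ k := (hj n).trans hn2
    have h2 : j ≠ k := by
      rintro rfl
      have h3 := hn3 (hj n)
      have h4 := (hu n).2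
      apply h4
      rw [mem_singleton_iff, hux n, h3, hxC]
    omega

theorem iterate_derived (K : ℝ) (j : ℕ) : derivedSet^[j] (LL K) ⊆ RJ K j := by
  induction j with
  | zero =>
    rintro x ⟨k, -, F, G, hF, hG, hFG, hK, hx⟩
    exact ⟨k, F, G, hF, hG, hFG, hK, Nat.zero_le _, hx⟩
  | succ j ih =>
    rw [Function.iterate_succ_apply']
    exact (derivedSet_mono _ _ ih).trans (derived_RJ K j)

theorem RJ_empty (K : ℝ) : ∃ m : ℕ, RJ K m = ∅ := by
  obtain ⟨m₀, hm₀⟩ := dim_bound K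
  refine ⟨m₀ + 1, ?_⟩
  rw [eq_empty_iff_forall_notMem]
  rintro x ⟨k, F, G, hF, hG, hFG, hK, hj, -⟩
  have := (hm₀ k F G hF hG hFG hK).2
  omega

theorem finite_rank (K : ℝ) : ∃ m : ℕ, derivedSet^[m] (LL K) = ∅ := by
  obtain ⟨m, hm⟩ := RJ_empty K
  exact ⟨m, subset_eq_empty (iterate_derived K m) hm⟩

theorem iterate_derived_local (A : Set ℝ) (B : ℝ) (j : ℕ) :
    derivedSet^[j] A ∩ Iio B ⊆ derivedSet^[j] (A ∩ Iio B) := by
  induction j with
  | zero => exact Subset.rfl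
  | succ j ih =>
    rw [Function.iterate_succ_apply', Function.iterate_succ_apply']
    rintro x ⟨hx, hxB⟩
    refine derivedSet_mono _ _ ih ?_
    rw [mem_derivedSet] at hx ⊢
    have h1 := hx.nhds_inter (Iio_mem_nhds hxB)
    rwa [inter_comm] at h1

theorem iterate_derived_mono {A B : Set ℝ} (h : A ⊆ B) (j : ℕ) :
    derivedSet^[j] A ⊆ derivedSet^[j] B := by
  induction j with
  | zero => exact h
  | succ j ih =>
    rw [Function.iterate_succ_apply', Function.iterate_succ_apply']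
    exact derivedSet_mono _ _ ih

/-- the measures of the polynomials without nonconstant self-reciprocal irreducible factor of
measure greater than one -/
def NR : Set ℝ :=
  {x : ℝ | ∃ k : ℕ, 1 ≤ k ∧ ∃ P : MvPolynomial (Fin k) ℤ, P ≠ 0 ∧
    (∀ Q : MvPolynomial (Fin k) ℤ, Irreducible Q → Q ∣ P →
      Q.totalDegree = 0 ∨ mM Q = 1 ∨ ¬ Associated (recip Q) Q) ∧ x = mM P}

theorem NR_rank (B : ℝ) : ∃ m : ℕ, ∀ x ∈ derivedSet^[m] NR, B ≤ x := by
  obtain ⟨m, hm⟩ := finite_rank (Real.log (max B 1))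
  refine ⟨m, fun x hx => ?_⟩
  by_contra hlt
  push Not at hlt
  have h1 := iterate_derived_local NR B m ⟨hx, hlt⟩
  have h2 : NR ∩ Iio B ⊆ LL (Real.log (max B 1)) := by
    rintro y ⟨⟨k, hk, P, hP, hP', rfl⟩, hy⟩
    refine LL_nonrecip P hP hP' _ ?_
    exact Real.log_le_log (lt_of_lt_of_le one_pos (one_le_mM P hP))
      ((le_of_lt hy).trans (le_max_left _ _))
  have h3 := iterate_derived_mono h2 m h1
  rw [hm] at h3
  exact h3

end

end Pool.Agent.H887R3.LW
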